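import Pool.Agent.H24.UG.T7
import Pool.Agent.H36.AG.END

/-!
UNIFORM LOCAL GAP (`MP_c59857_nt`), row UEN: the last step.
-/

set_option autoImplicit false

open MeasureTheory ProbabilityTheory Filter Topology Finset
open scoped Nat ENNReal

namespace Pool.Agent.H75.UG

open Pool.Agent.H67.AG (Inv Rt SA kap JJ TT InvZ nxt triv Fac Tup dl Mis κ₀ T_TRI T_MN T_JT T_CL
  T_PM T_PE T_AI T_RS T_DU T_J2 T_J3)
open Pool.Agent.H36.AG (inv_iff rt_le inv_mul rt_of_inv rt_fst rt_snd mis_meas dl_meas dl_01 tt_mp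
  mis_symm MM mis_trans small_sec sec_ae SS SS_meas SS_int class_zero near_inv dl_eq)

/-- closeness with a threshold: the set -/
def RRg (t : ℝ) {X : Type} [MeasurableSpace X] (P : Measure (X × X)) (T : X ≃ᵐ X) {k : ℕ}
    (Dt : Fin k → X → ℝ) (Xg : Set X) : Set (X × X) :=
  {q | q.1 ∈ Xg ∧ q.2 ∈ Xg ∧
    Mis P (Rt (TT T)) (fun i q => Dt i q.1) (fun i q => Dt i q.2) q ≤ t}

theorem RRg_meas (t : ℝ) {X : Type} [MeasurableSpace X] (P : Measure (X × X)) (T : X ≃ᵐ X) {k : ℕ}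
    (Dt : Fin k → X → ℝ) (Xg : Set X) (hX : MeasurableSet[Rt T] Xg) :
    MeasurableSet[Rt (TT T)] (RRg t P T Dt Xg) := by
  have h1 := rt_fst T Xg hX
  have h2 := rt_snd T Xg hX
  have h3 : MeasurableSet[Rt (TT T)] {q : X × X |
      Mis P (Rt (TT T)) (fun i q => Dt i q.1) (fun i q => Dt i q.2) q ≤ t} :=
    mis_meas (Rt (TT T)) P _ _ (measurableSet_Iic (a := t))
  exact h1.inter (h2.inter h3)

/-- the relation is symmetric and transitive -/
theorem relg_st {X : Type} [MeasurableSpace X] (μ : Measure X) [IsProbabilityMeasure μ]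
    (T : X ≃ᵐ X) {k : ℕ} (Dt : Fin k → X → ℝ) (Xg : Set X) (htri : T_TRI) (hmn : T_MN)
    (hT : MeasurePreserving T μ μ) (hD : Tup Dt) (t s : ℝ) (hst : 2 * s ≤ t)
    (hM : ∀ᵐ q ∂(μ.prod μ), q ∈ RRg t (μ.prod μ) T Dt Xg → MM μ T Dt q ≤ s) :
    (∀ᵐ q ∂(μ.prod μ), q ∈ RRg t (μ.prod μ) T Dt Xg → q.swap ∈ RRg t (μ.prod μ) T Dt Xg) ∧
    (∀ᵐ q ∂(μ.prod (μ.prod μ)), (q.1, q.2.1) ∈ RRg t (μ.prod μ) T Dt Xg →
      (q.2.1, q.2.2) ∈ RRg t (μ.prod μ) T Dt Xg → (q.1, q.2.2) ∈ RRg t (μ.prod μ) T Dt Xg) := by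
  constructor
  · filter_upwards [mis_symm htri hmn μ T hT Dt hD] with q e hq
    refine ⟨hq.2.1, hq.1, ?_⟩
    rw [e]
    exact hq.2.2
  · have m12 : MeasurePreserving (fun ω : X × (X × X) => (ω.1, ω.2.1)) (μ.prod (μ.prod μ))
        (μ.prod μ) := (MeasurePreserving.id μ).prod measurePreserving_fst
    have m23 : MeasurePreserving (fun ω : X × (X × X) => ω.2) (μ.prod (μ.prod μ))
        (μ.prod μ) := measurePreserving_snd
    filter_upwards [mis_trans μ T Dt htri hmn hT hD, m12.quasiMeasurePreserving.ae hM,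
      m23.quasiMeasurePreserving.ae hM] with ω e e1 e2 h1 h2
    refine ⟨h1.1, h2.2.1, ?_⟩
    have e1' := e1 h1
    have e2' : MM μ T Dt (ω.2.1, ω.2.2) ≤ s := e2 h2
    change MM μ T Dt (ω.1, ω.2.2) ≤ t
    have e1'' : MM μ T Dt (ω.1, ω.2.1) ≤ s := e1'
    linarith

theorem end_coreg (htri : T_TRI) (hmn : T_MN) (hcl : T_CL) (hpm : T_PM) (hpe : T_PE) (hai : T_AI)
    (hrs : T_RS) (hdu : T_DU) {X : Type} [MeasurableSpace X]
    [StandardBorelSpace X] (μ : Measure X) [IsProbabilityMeasure μ] (T : X ≃ᵐ X)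
    (hT : MeasurePreserving T μ μ) {k : ℕ} (Dt : Fin k → X → ℝ) (hDt : Tup Dt) (i₀ : Fin k)
    (D : X → ℝ) (hDm : Measurable D) (hD1 : ∀ x, |D x| ≤ 1) (b : ℕ)
    (hDb : ∀ x, Dt i₀ x = D (T^[b] x)) (mr : ∀ W, 0 < W → μ[D | Inv T W] =ᵐ[μ] 0) (Xg : Set X)
    (hXg : MeasurableSet[Rt T] Xg)
    (t s : ℝ) (hst : 2 * s ≤ t) (hs : s < 1 / 2)
    (hM : ∀ᵐ q ∂(μ.prod μ), q ∈ RRg t (μ.prod μ) T Dt Xg → MM μ T Dt q ≤ s)
    (hpos : 0 < (μ.prod μ).real (RRg t (μ.prod μ) T Dt Xg)) : False := by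
  have hT2 := tt_mp μ T hT
  have hRt : MeasurableSet[Rt (TT T)] (RRg t (μ.prod μ) T Dt Xg) := RRg_meas t _ T Dt Xg hXg
  obtain ⟨hsym, htrans⟩ := relg_st μ T Dt Xg htri hmn hT hDt t s hst hM
  set P : Measure (X × X) := μ.prod μ with hP
  set R : Set (X × X) := RRg t P T Dt Xg with hRdef
  have hR : MeasurableSet R := rt_le _ _ hRt
  set c₀ : ℝ := P.real R / 4 with hc0
  have hc : 0 < c₀ := by rw [hc0]; linarith
  obtain ⟨s1, s2⟩ := small_sec μ R hR c₀ hc hsym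
  obtain ⟨r, C, hC, hdis, hae⟩ := hcl X μ R c₀ hR hc hsym htrans
  have hSm : MeasurableSet (SS C) := SS_meas C fun a => (hC a).1
  have hSpos : 0 < P.real (SS C) := by
    have h1 : P.real R ≤ P.real (SS C ∪ ({q | q ∈ R ∧ μ.real {x' | (q.1, x') ∈ R} < c₀} ∪
        {q | q ∈ R ∧ μ.real {x' | (q.2, x') ∈ R} < c₀})) := by
      refine ENNReal.toReal_mono (measure_ne_top _ _) (measure_mono_ae ?_)
      filter_upwards [hae] with q hq hqR
      by_cases h1 : μ.real {x' | (q.1, x') ∈ R} < c₀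
      · exact Or.inr (Or.inl ⟨hqR, h1⟩)
      by_cases h2 : μ.real {x' | (q.2, x') ∈ R} < c₀
      · exact Or.inr (Or.inr ⟨hqR, h2⟩)
      · exact Or.inl (hq.1 ⟨hqR, not_lt.1 h1, not_lt.1 h2⟩)
    have h2 := measureReal_union_le (μ := P) (SS C) ({q | q ∈ R ∧ μ.real {x' | (q.1, x') ∈ R} < c₀} ∪
        {q | q ∈ R ∧ μ.real {x' | (q.2, x') ∈ R} < c₀})
    have h3 := measureReal_union_le (μ := P) {q | q ∈ R ∧ μ.real {x' | (q.1, x') ∈ R} < c₀}
        {q | q ∈ R ∧ μ.real {x' | (q.2, x') ∈ R} < c₀}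
    have h4 : P.real R = 4 * c₀ := by rw [hc0]; ring
    linarith
  -- the dual function
  have hind : Measurable[Rt (TT T)] (R.indicator fun _ => (1 : ℝ)) :=
    Measurable.indicator measurable_const hRt
  obtain ⟨ps, hps, h01, hdu'⟩ := hdu (X × X) X P μ (TT T) T Prod.fst (R.indicator fun _ => (1 : ℝ))
    hT2 hT ⟨measurePreserving_fst, fun _ => rfl⟩ hind
    (fun q => by by_cases hq : q ∈ R <;> simp [hq])
  have hpsae := sec_ae μ R hR ps (hps.mono (rt_le _) le_rfl) h01 hdu'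
  have hpc : MeasurableSet[Rt T] {x | c₀ ≤ ps x} := hps (measurableSet_Ici (a := c₀))
  have hR2 : MeasurableSet[Rt (TT T)] (R ∩ ({q : X × X | q.1 ∈ {x | c₀ ≤ ps x}} ∩
      {q : X × X | q.2 ∈ {x | c₀ ≤ ps x}})) :=
    hRt.inter ((rt_fst T _ hpc).inter (rt_snd T _ hpc))
  set R2 : Set (X × X) := R ∩ ({q : X × X | q.1 ∈ {x | c₀ ≤ ps x}} ∩
      {q : X × X | q.2 ∈ {x | c₀ ≤ ps x}}) with hR2def
  have hR2S : R2 =ᵐ[P] SS C := by
    have m1 : MeasurePreserving (Prod.fst : X × X → X) P μ := measurePreserving_fst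
    have m2 : MeasurePreserving (Prod.snd : X × X → X) P μ := measurePreserving_snd
    filter_upwards [hae, m1.quasiMeasurePreserving.ae hpsae,
      m2.quasiMeasurePreserving.ae hpsae] with q hq e1 e2
    refine propext ?_
    change (q ∈ R ∧ c₀ ≤ ps q.1 ∧ c₀ ≤ ps q.2) ↔ _
    rw [e1, e2]
    exact hq
  have hnear : ∀ ε : ℝ, 0 < ε → ∃ W : ℕ, 0 < W ∧ ∀ n : ℕ, P.real
      (symmDiff (SS C) ((TT T)^[W * n] ⁻¹' (SS C))) ≤ ε :=
    fun ε hε => near_inv hrs P (TT T) hT2 (SS C) R2 hSm hR2 hR2S ε hε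
  have hz : ∀ a, ∫ x in C a, Dt i₀ x ∂μ = 0 := by
    intro a
    have := class_zero hpm hpe hai μ T hT D hDm hD1 b mr r C c₀ hc hC hdis hnear a
    rw [← this]
    exact integral_congr_ae (ae_of_all _ fun x => hDb x)
  have hu1 : ∀ x, |Dt i₀ x| ≤ 1 := fun x => by
    rcases hDt.2 i₀ x with h | h <;> rw [h] <;> norm_num
  have hprod := SS_int μ C (fun a => (hC a).1) hdis (Dt i₀) (hDt.1 i₀) hu1 hz
  -- the integral of the mismatch
  have t1 : Tup (fun (i : Fin k) (q : X × X) => Dt i q.1) :=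
    ⟨fun i => (hDt.1 i).comp measurable_fst, fun i q => hDt.2 i q.1⟩
  have t2 : Tup (fun (i : Fin k) (q : X × X) => Dt i q.2) :=
    ⟨fun i => (hDt.1 i).comp measurable_snd, fun i q => hDt.2 i q.2⟩
  have hdi : ∀ i, Integrable (dl (fun (i : Fin k) (q : X × X) => Dt i q.1)
      (fun (i : Fin k) (q : X × X) => Dt i q.2) i) P := fun i =>
    Integrable.of_bound (dl_meas _ _ t1 t2 i).aestronglyMeasurable 1 (ae_of_all _ fun q => by
      rw [Real.norm_eq_abs, abs_of_nonneg (dl_01 _ _ i q).1]; exact (dl_01 _ _ i q).2)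
  have hpi : Integrable (fun q : X × X => Dt i₀ q.1 * Dt i₀ q.2) P := by
    refine Integrable.of_bound (((hDt.1 i₀).comp measurable_fst).mul
      ((hDt.1 i₀).comp measurable_snd)).aestronglyMeasurable 1 (ae_of_all _ fun q => ?_)
    rw [Real.norm_eq_abs, abs_mul]
    have h1 := hu1 q.1
    have h2 := hu1 q.2
    have h3 := abs_nonneg (Dt i₀ q.1)
    have h4 := abs_nonneg (Dt i₀ q.2)
    nlinarith
  have e1 : ∫ q in SS C, dl (fun (i : Fin k) (q : X × X) => Dt i q.1)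
      (fun (i : Fin k) (q : X × X) => Dt i q.2) i₀ q ∂P = P.real (SS C) / 2 := by
    have e0 : ∀ q : X × X, dl (fun (i : Fin k) (q : X × X) => Dt i q.1)
      (fun (i : Fin k) (q : X × X) => Dt i q.2) i₀ q =
        1 / 2 - (1 / 2) * (Dt i₀ q.1 * Dt i₀ q.2) := fun q => by
      rw [dl_eq Dt hDt.2 i₀ q]; ring
    simp only [e0]
    rw [integral_sub (integrable_const _) (hpi.integrableOn.const_mul _), integral_const_mul, hprod]
    simp [Measure.real, mul_comm]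
    ring
  have e2 : ∫ q in R2, dl (fun (i : Fin k) (q : X × X) => Dt i q.1)
      (fun (i : Fin k) (q : X × X) => Dt i q.2) i₀ q ∂P = P.real (SS C) / 2 := by
    rw [← e1]
    exact setIntegral_congr_set hR2S
  have e3 : ∫ q in R2, dl (fun (i : Fin k) (q : X × X) => Dt i q.1)
      (fun (i : Fin k) (q : X × X) => Dt i q.2) i₀ q ∂P =
      ∫ q in R2, (P[dl (fun (i : Fin k) (q : X × X) => Dt i q.1)
      (fun (i : Fin k) (q : X × X) => Dt i q.2) i₀ | Rt (TT T)]) q ∂P :=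
    (setIntegral_condExp (rt_le _) (hdi i₀) hR2).symm
  have e4 : ∫ q in R2, (P[dl (fun (i : Fin k) (q : X × X) => Dt i q.1)
      (fun (i : Fin k) (q : X × X) => Dt i q.2) i₀ | Rt (TT T)]) q ∂P ≤
      ∫ _q in R2, s ∂P := by
    refine setIntegral_mono_on_ae integrable_condExp.integrableOn (integrable_const _)
      (rt_le _ _ hR2) ?_
    have hnn : ∀ᵐ q ∂P, ∀ i, 0 ≤ (P[dl (fun (i : Fin k) (q : X × X) => Dt i q.1)
      (fun (i : Fin k) (q : X × X) => Dt i q.2) i | Rt (TT T)]) q := by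
      rw [ae_all_iff]
      intro i
      exact condExp_nonneg (ae_of_all _ fun q => (dl_01 _ _ i q).1)
    filter_upwards [hM, hnn] with q hq hn hqR
    refine le_trans ?_ (hq hqR.1)
    unfold MM Mis
    exact Finset.single_le_sum (f := fun i => (P[dl (fun (i : Fin k) (q : X × X) => Dt i q.1)
      (fun (i : Fin k) (q : X × X) => Dt i q.2) i | Rt (TT T)]) q)
      (fun i _ => hn i) (Finset.mem_univ i₀)
  have e5 : ∫ _q in R2, s ∂P = P.real (SS C) * s := by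
    rw [setIntegral_const, measureReal_congr hR2S, smul_eq_mul]
  rw [← e3, e2, e5] at e4
  nlinarith

open Pool.Agent.H24.UG (T_UDR T_UEN CxE)

/-- **UEN.** -/
theorem pf_UEN (hdr : T_UDR) (htri : T_TRI) (hmn : T_MN) (hjt : T_JT) (hcl : T_CL) (hpm : T_PM)
    (hpe : T_PE) (hai : T_AI) (hrs : T_RS) (hdu : T_DU) (_hj2 : T_J2) (_hj3 : T_J3) : T_UEN := by
  intro c hcp
  have hT : MeasurePreserving c.T c.μ c.μ := c.erg.toMeasurePreserving
  have hT2 := tt_mp c.μ c.T hT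
  have hDt : Tup c.Dt := ⟨fun i => c.Dm.comp (c.T.measurable.iterate _), fun i x => c.Dv _⟩
  have hY : MeasurableSet[Rt c.T] c.Y := rt_of_inv c.T c.Q c.Qpos c.Y c.Ym c.Yinv
  have hXg : MeasurableSet[Rt c.T] c.Xg :=
    hY.inter (c.em (measurableSet_Iic (a := 4 * κ₀ * c.γ ^ 3)))
  have hD1 : ∀ x, |c.D x| ≤ 1 := fun x => by
    rcases c.Dv x with h | h <;> rw [h] <;> norm_num
  unfold CxE.CP at hcp
  rw [hjt c.X c.μ] at hcp
  have h1 := hdr c (c.μ.prod c.μ) hT2 measurePreserving_fst measurePreserving_snd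
  have g0 : 0 < c.γ := c.γ0
  have g1 : c.γ ≤ 1 := c.γ1
  have gg : c.γ ^ 2 ≤ c.γ := by nlinarith
  have gg0 : 0 < c.γ ^ 2 := by positivity
  refine end_coreg htri hmn hcl hpm hpe hai hrs hdu c.μ c.T hT c.Dt hDt ⟨0, c.kpos⟩ c.D c.Dm hD1
    (c.β ⟨0, c.kpos⟩) (fun x => rfl) c.mr c.Xg hXg (c.γ / 2) (81 / 100000 * c.γ ^ 2)
    (by nlinarith) (by nlinarith) ?_ hcp
  filter_upwards [h1] with q hq hqR
  have hx := hq hqR.1.1 hqR.2.1.1
  have ha : c.e q.1 ≤ 4 * κ₀ * c.γ ^ 3 := hqR.1.2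
  have hb : c.e q.2 ≤ 4 * κ₀ * c.γ ^ 3 := hqR.2.1.2
  have hm : MM c.μ c.T c.Dt q ≤ c.γ / 2 := hqR.2.2
  have hx' : c.γ * MM c.μ c.T c.Dt q - MM c.μ c.T c.Dt q ^ 2 ≤ c.e q.1 + c.e q.2 := hx
  have hk : κ₀ = 1 / 10000 := rfl
  rw [hk] at ha hb
  by_contra hne
  have hne' := not_le.1 hne
  set M := MM c.μ c.T c.Dt q with hMdef
  have k1 : c.γ * M - M ^ 2 ≤ 8 / 10000 * c.γ ^ 3 := by linarith
  -- the function is increasing on the interval
  have k2 : c.γ * (81 / 100000 * c.γ ^ 2) - (81 / 100000 * c.γ ^ 2) ^ 2 ≤ c.γ * M - M ^ 2 := by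
    nlinarith
  have k3 : c.γ * (81 / 100000 * c.γ ^ 2) - (81 / 100000 * c.γ ^ 2) ^ 2 =
      c.γ ^ 3 * (81 / 100000 - (81 / 100000) ^ 2 * c.γ) := by ring
  have k4 : 0 < c.γ ^ 3 := by positivity
  have k5 : (8 / 10000 : ℝ) < 81 / 100000 - (81 / 100000) ^ 2 * c.γ := by nlinarith
  have k6 := mul_lt_mul_of_pos_left k5 k4
  linarith

end Pool.Agent.H75.UG
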